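import Pool.Agent.Lib.MP_405077_mp.H75.Smear

set_option autoImplicit false

open MeasureTheory Set Filter Topology

namespace Pool.Agent.Lib.MP_405077_mp.H75

open Pool.Agent.Lib.MP_405077_mp

theorem isTF_nonneg {γ μ : ℝ} {m ρ : E3 → ℝ} (hγ : 0 < γ) (h : IsTF γ μ m ρ) (x : E3) :
    0 ≤ ρ x := by
  rw [h.eq x]
  exact Real.rpow_nonneg (div_nonneg (le_max_right _ _) hγ.le) _

theorem adm_of_BC {ρ : E3 → ℝ} (h : BC ρ) (h0 : ∀ x, 0 ≤ ρ x) : Adm ρ := by
  refine ⟨h0, H94.BC_integrable h, H94.BC_integrable ?_⟩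
  obtain ⟨M, hM⟩ := h.bdd
  obtain ⟨r, hr⟩ := h.supp
  refine ⟨h.meas.pow_const _, ⟨|M| ^ (5 / 3 : ℝ), fun x => ?_⟩, ⟨r, fun x hx => ?_⟩⟩
  · rw [abs_of_nonneg (Real.rpow_nonneg (h0 x) _)]
    refine Real.rpow_le_rpow (h0 x) ?_ (by norm_num)
    exact (le_abs_self _).trans ((hM x).trans (le_abs_self _))
  · rw [hr x hx]
    exact Real.zero_rpow (by norm_num)

/-- Pointwise bound for a Thomas-Fermi solution. -/
theorem isTF_le {γ μ : ℝ} {m ρ : E3 → ℝ} (hγ : 0 < γ) (h : IsTF γ μ m ρ) (x : E3) (B : ℝ)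
    (hB : pot m x ≤ B) : ρ x ≤ (max (B - μ) 0 / γ) ^ (3 / 2 : ℝ) := by
  rw [h.eq x]
  have h1 : 0 ≤ pot ρ x := H94.pot_nonneg (isTF_nonneg hγ h) x
  refine Real.rpow_le_rpow (div_nonneg (le_max_right _ _) hγ.le) ?_ (by norm_num)
  refine div_le_div_of_nonneg_right (max_le_max ?_ le_rfl) hγ.le
  linarith

/-- Outside a ball the potential of the nuclei is small. -/
theorem nuc_small {k : ℕ} (z : Fin k → ℝ) (R : Fin k → E3) (hz : ∀ i, 0 < z i) (c : ℝ)
    (hc : 0 < c) : ∃ r : ℝ, 0 < r ∧ ∀ x : E3, r ≤ ‖x‖ → (∀ i, x ≠ R i) ∧ nuc z R x ≤ c := by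
  set Z := ∑ i, z i with hZ
  set D := ∑ i, ‖R i‖ with hD
  have hZ0 : 0 ≤ Z := Finset.sum_nonneg fun i _ => (hz i).le
  have hD0 : 0 ≤ D := Finset.sum_nonneg fun i _ => norm_nonneg _
  refine ⟨D + Z / c + 1, by positivity, fun x hx => ?_⟩
  have h1 : ∀ i, Z / c + 1 ≤ ‖x - R i‖ := by
    intro i
    have h2 : ‖R i‖ ≤ D := Finset.single_le_sum (f := fun i => ‖R i‖)
      (fun j _ => norm_nonneg _) (Finset.mem_univ i)
    have h3 := norm_sub_norm_le x (R i)
    linarith
  have hpos : 0 < Z / c + 1 := by positivity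
  refine ⟨fun i hi => ?_, ?_⟩
  · have := h1 i
    rw [hi, sub_self, norm_zero] at this
    linarith
  · calc nuc z R x ≤ ∑ i, z i / (Z / c + 1) := by
          refine Finset.sum_le_sum fun i _ => ?_
          exact div_le_div_of_nonneg_left (hz i).le hpos (h1 i)
      _ = Z / (Z / c + 1) := by rw [← Finset.sum_div]
      _ ≤ c := by
          rw [div_le_iff₀ hpos]
          have : c * (Z / c + 1) = Z + c := by field_simp
          rw [this]
          linarith

theorem fun0_sub (γ τ μ : ℝ) (V W σ : E3 → ℝ) (hV : Integrable (fun x => V x * σ x))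
    (hW : Integrable (fun x => W x * σ x)) :
    fun0 γ τ μ V σ = fun0 γ τ μ W σ + τ * ∫ x, (W x - V x) * σ x := by
  have e : ∫ x, (W x - V x) * σ x = (∫ x, W x * σ x) - ∫ x, V x * σ x := by
    rw [← integral_sub hW hV]
    congr 1
    funext x
    ring
  rw [e]
  unfold fun0
  ring

theorem nuc_mul_integrable (hA : AdmStatement) {k : ℕ} (z : Fin k → ℝ) (R : Fin k → E3)
    (σ : E3 → ℝ) (hσ : Adm σ) : Integrable (fun x => nuc z R x * σ x) := by
  have e : (fun x => nuc z R x * σ x) = fun x => ∑ i, z i * (σ x / ‖R i - x‖) := by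
    funext x
    unfold nuc
    rw [Finset.sum_mul]
    refine Finset.sum_congr rfl fun i _ => ?_
    rw [norm_sub_rev]
    ring
  rw [e]
  exact integrable_finsetSum _ fun i _ => ((hA σ hσ).1 (R i)).const_mul _

theorem lim (hP : PotStatement) (hA : AdmStatement) (hT : TauStatement) : LimStatement := by
  intro k z R γ μ τ₁ τ₂ hz hγ hμ hτ1 hτ12 σ δ hσ hδ
  have hτ2 : 0 < τ₂ := hτ1.trans_le hτ12
  obtain ⟨C, hC0, hC⟩ := pot_smear_le hP
  -- the sequence of radii
  set e : ℕ → ℝ := fun n => 1 / ((n : ℝ) + 1) with he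
  have he0 : ∀ n, 0 < e n := fun n => by positivity
  have het : Tendsto e atTop (𝓝 0) := tendsto_one_div_add_atTop_nhds_zero_nat
  -- the minimisers
  have hex : ∀ n, ∃ ρ : E3 → ℝ, IsTF (τ₂ * γ) (μ / τ₂) (smear z R (e n)) ρ ∧
      ∀ σ : E3 → ℝ, Adm σ → fun0 γ τ₂ μ (pot (smear z R (e n))) ρ ≤
        fun0 γ τ₁ μ (pot (smear z R (e n))) σ := fun n =>
    hT γ μ τ₁ τ₂ (smear z R (e n)) hγ hμ hτ1 hτ12 (smear_BC z R (e n) (he0 n))
      (smear_nonneg z R (e n) hz (he0 n))
  choose ρ hρ hmin using hex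
  set γ' := τ₂ * γ with hγ'
  set μ' := μ / τ₂ with hμ'
  have hγ'0 : 0 < γ' := by positivity
  have hμ'0 : 0 < μ' := by positivity
  have hρ0 : ∀ n x, 0 ≤ ρ n x := fun n x => isTF_nonneg hγ'0 (hρ n) x
  have hρA : ∀ n, Adm (ρ n) := fun n => adm_of_BC (hρ n).bc (hρ0 n)
  set P : ℕ → E3 → ℝ := fun n => pot (smear z R (e n)) with hPdef
  have hP0 : ∀ n x, 0 ≤ P n x := fun n x => pot_smear_nonneg z R (e n) hz (he0 n) x
  have hPle : ∀ n x, (∀ i, x ≠ R i) → P n x ≤ C * nuc z R x := fun n x hx =>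
    hC k z R (e n) hz (he0 n) x hx
  have hPcont : ∀ n, Continuous (P n) := fun n =>
    (hP _ (smear_BC z R (e n) (he0 n))).2.2.2.1.continuous
  have hPt : ∀ x, (∀ i, x ≠ R i) → Tendsto (fun n => P n x) atTop (𝓝 (nuc z R x)) :=
    fun x hx => tendsto_pot_smear hP z R x hx e he0 het
  have hN0 : ∀ x, 0 ≤ nuc z R x := nuc_nonneg z R hz
  have habs : ∀ n x, (∀ i, x ≠ R i) → |P n x - nuc z R x| ≤ (C + 1) * nuc z R x := by
    intro n x hx
    have h1 := hPle n x hx
    have h2 := hP0 n x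
    have h3 := hN0 x
    rw [abs_le]
    constructor <;> nlinarith
  -- the common bound of the minimisers
  obtain ⟨r, hr0, hr⟩ := nuc_small z R hz (μ' / C) (by positivity)
  have hρle : ∀ n x, (∀ i, x ≠ R i) → ρ n x ≤ (C / γ') ^ (3 / 2 : ℝ) * nuc z R x ^ (3 / 2 : ℝ) := by
    intro n x hx
    have h1 := isTF_le hγ'0 (hρ n) x _ (hPle n x hx)
    refine h1.trans ?_
    rw [← Real.mul_rpow (by positivity) (hN0 x)]
    refine Real.rpow_le_rpow (div_nonneg (le_max_right _ _) hγ'0.le) ?_ (by norm_num)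
    rw [div_mul_eq_mul_div]
    refine div_le_div_of_nonneg_right (max_le (by linarith) ?_) hγ'0.le
    have := hN0 x
    positivity
  have hρsupp : ∀ n x, r ≤ ‖x‖ → ρ n x = 0 := by
    intro n x hx
    obtain ⟨h1, h2⟩ := hr x hx
    have h3 : P n x ≤ μ' := by
      refine (hPle n x h1).trans ?_
      have := mul_le_mul_of_nonneg_left h2 hC0.le
      rwa [mul_div_cancel₀ _ hC0.ne'] at this
    have h4 := isTF_le hγ'0 (hρ n) x _ h3
    rw [sub_self, max_self, zero_div, Real.zero_rpow (by norm_num)] at h4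
    exact le_antisymm h4 (hρ0 n x)
  -- the dominating function
  set g : E3 → ℝ := fun x => (C + 1) * (C / γ') ^ (3 / 2 : ℝ) *
    indicator (Metric.ball 0 r) (fun x => nuc z R x ^ (5 / 2 : ℝ)) x with hg
  have hgint : Integrable g := by
    refine Integrable.const_mul ?_ _
    exact (integrable_indicator_iff measurableSet_ball).2 (nuc_pow_integrableOn z R hz r)
  have hdom : ∀ n x (t : ℝ), (∀ i, x ≠ R i) → |t| ≤ (C + 1) * nuc z R x →
      ‖t * ρ n x‖ ≤ g x := by
    intro n x t hx ht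
    by_cases hxr : x ∈ Metric.ball (0 : E3) r
    · rw [hg]
      simp only
      rw [indicator_of_mem hxr, norm_mul, Real.norm_eq_abs, Real.norm_of_nonneg (hρ0 n x)]
      have h1 : nuc z R x ^ (5 / 2 : ℝ) = nuc z R x * nuc z R x ^ (3 / 2 : ℝ) := by
        rw [← Real.rpow_one_add' (hN0 x) (by norm_num)]
        norm_num
      rw [h1]
      calc |t| * ρ n x ≤ ((C + 1) * nuc z R x) *
            ((C / γ') ^ (3 / 2 : ℝ) * nuc z R x ^ (3 / 2 : ℝ)) :=
            mul_le_mul ht (hρle n x hx) (hρ0 n x) (mul_nonneg (by positivity) (hN0 x))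
        _ = _ := by ring
    · have h1 : r ≤ ‖x‖ := by
        simpa [Metric.mem_ball, dist_zero_right] using hxr
      rw [hρsupp n x h1, mul_zero, norm_zero, hg]
      simp only
      rw [indicator_of_notMem hxr, mul_zero]
  have hne := ae_ne R
  -- integrability
  have hi1 : ∀ n, Integrable (fun x => nuc z R x * ρ n x) := by
    intro n
    refine Integrable.mono' hgint
      ((nuc_measurable z R).mul (hρ n).bc.meas).aestronglyMeasurable ?_
    filter_upwards [hne] with x hx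
    refine hdom n x _ hx ?_
    rw [abs_of_nonneg (hN0 x)]
    nlinarith [hN0 x]
  have hi2 : ∀ n, Integrable (fun x => P n x * ρ n x) := by
    intro n
    refine Integrable.mono' hgint
      ((hPcont n).measurable.mul (hρ n).bc.meas).aestronglyMeasurable ?_
    filter_upwards [hne] with x hx
    refine hdom n x _ hx ?_
    rw [abs_of_nonneg (hP0 n x)]
    nlinarith [hN0 x, hPle n x hx]
  have hi3 : Integrable (fun x => nuc z R x * σ x) := nuc_mul_integrable hA z R σ hσ
  have hi3' : Integrable (fun x => (C + 1) * (nuc z R x * σ x)) := hi3.const_mul _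
  have hi4 : ∀ n, Integrable (fun x => P n x * σ x) := by
    intro n
    refine Integrable.mono' hi3'
      ((hPcont n).aestronglyMeasurable.mul hσ.int.aestronglyMeasurable) ?_
    filter_upwards [hne] with x hx
    rw [Real.norm_of_nonneg (mul_nonneg (hP0 n x) (hσ.nonneg x)), ← mul_assoc]
    refine mul_le_mul_of_nonneg_right ?_ (hσ.nonneg x)
    nlinarith [hN0 x, hPle n x hx]
  -- the two limits
  have hl1 : Tendsto (fun n => ∫ x, (P n x - nuc z R x) * ρ n x) atTop (𝓝 0) := by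
    have h0 : (0 : ℝ) = ∫ _x : E3, (0 : ℝ) := by simp
    rw [h0]
    refine tendsto_integral_of_dominated_convergence g ?_ hgint ?_ ?_
    · intro n
      exact (((hPcont n).measurable.sub (nuc_measurable z R)).mul
        (hρ n).bc.meas).aestronglyMeasurable
    · intro n
      filter_upwards [hne] with x hx
      exact hdom n x _ hx (habs n x hx)
    · filter_upwards [hne] with x hx
      have h1 : Tendsto (fun n => |P n x - nuc z R x| *
          ((C / γ') ^ (3 / 2 : ℝ) * nuc z R x ^ (3 / 2 : ℝ))) atTop (𝓝 0) := by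
        have h2 : Tendsto (fun n => |P n x - nuc z R x|) atTop (𝓝 0) := by
          have h3 := ((hPt x hx).sub_const (nuc z R x)).abs
          rwa [sub_self, abs_zero] at h3
        have h4 := h2.mul_const ((C / γ') ^ (3 / 2 : ℝ) * nuc z R x ^ (3 / 2 : ℝ))
        rwa [zero_mul] at h4
      refine squeeze_zero_norm (fun n => ?_) h1
      rw [norm_mul, Real.norm_eq_abs, Real.norm_of_nonneg (hρ0 n x)]
      exact mul_le_mul_of_nonneg_left (hρle n x hx) (abs_nonneg _)
  have hl2 : Tendsto (fun n => ∫ x, (nuc z R x - P n x) * σ x) atTop (𝓝 0) := by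
    have h0 : (0 : ℝ) = ∫ _x : E3, (0 : ℝ) := by simp
    rw [h0]
    refine tendsto_integral_of_dominated_convergence _ ?_ hi3' ?_ ?_
    · intro n
      exact (((nuc_measurable z R).sub (hPcont n).measurable).aestronglyMeasurable.mul
        hσ.int.aestronglyMeasurable)
    · intro n
      filter_upwards [hne] with x hx
      rw [norm_mul, Real.norm_eq_abs, Real.norm_of_nonneg (hσ.nonneg x), abs_sub_comm,
        ← mul_assoc]
      exact mul_le_mul_of_nonneg_right (habs n x hx) (hσ.nonneg x)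
    · filter_upwards [hne] with x hx
      have h3 := ((hPt x hx).const_sub (nuc z R x)).mul_const (σ x)
      rwa [sub_self, zero_mul] at h3
  -- the choice of the index
  have h1 : ∀ᶠ n in atTop, τ₂ * (∫ x, (P n x - nuc z R x) * ρ n x) < δ / 2 := by
    have h := hl1.const_mul τ₂
    rw [mul_zero] at h
    exact h.eventually (gt_mem_nhds (half_pos hδ))
  have h2 : ∀ᶠ n in atTop, τ₁ * (∫ x, (nuc z R x - P n x) * σ x) < δ / 2 := by
    have h := hl2.const_mul τ₁
    rw [mul_zero] at h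
    exact h.eventually (gt_mem_nhds (half_pos hδ))
  obtain ⟨n, hn1, hn2⟩ := (h1.and h2).exists
  refine ⟨ρ n, hρA n, ?_⟩
  have e1 := fun0_sub γ τ₂ μ (nuc z R) (P n) (ρ n) (hi1 n) (hi2 n)
  have e2 := fun0_sub γ τ₁ μ (P n) (nuc z R) σ (hi4 n) hi3
  have e3 := hmin n σ hσ
  have e3' : fun0 γ τ₂ μ (P n) (ρ n) ≤ fun0 γ τ₁ μ (P n) σ := e3
  rw [e1]
  linarith

end Pool.Agent.Lib.MP_405077_mp.H75
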