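import Pool.Agent.Lib.MP_405077_mp.Defs

set_option autoImplicit false

open MeasureTheory Set Filter Topology

namespace Pool.Agent.Lib.MP_405077_mp.H75

open Pool.Agent.Lib.MP_405077_mp

/-- Positivity of the quadratic form of a mixture of kernels of rank one. -/
theorem pos_of_mixture {X W : Type*} [MeasurableSpace X] [MeasurableSpace W] (μ : Measure X)
    [SFinite μ] (lam : Measure W) [SFinite lam] (f : X → ℝ) (K : X → W → ℝ)
    (hF : AEStronglyMeasurable
      (fun q : (X × X) × W => f q.1.1 * f q.1.2 * (K q.1.1 q.2 * K q.1.2 q.2))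
      ((μ.prod μ).prod lam))
    (h1 : ∀ᵐ p : X × X ∂(μ.prod μ), Integrable (fun w => K p.1 w * K p.2 w) lam)
    (h2 : Integrable (fun p : X × X => ∫ w, ‖f p.1 * f p.2 * (K p.1 w * K p.2 w)‖ ∂lam)
      (μ.prod μ)) :
    0 ≤ ∫ p : X × X, f p.1 * f p.2 * (∫ w, K p.1 w * K p.2 w ∂lam) ∂(μ.prod μ) := by
  have hI : Integrable (fun q : (X × X) × W => f q.1.1 * f q.1.2 * (K q.1.1 q.2 * K q.1.2 q.2))
      ((μ.prod μ).prod lam) := by
    rw [integrable_prod_iff hF]
    refine ⟨?_, h2⟩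
    filter_upwards [h1] with p hp
    exact hp.const_mul _
  have e1 : ∫ p : X × X, f p.1 * f p.2 * (∫ w, K p.1 w * K p.2 w ∂lam) ∂(μ.prod μ) =
      ∫ w, (∫ p : X × X, f p.1 * f p.2 * (K p.1 w * K p.2 w) ∂(μ.prod μ)) ∂lam := by
    rw [← integral_integral_swap (f := fun (p : X × X) (w : W) =>
      f p.1 * f p.2 * (K p.1 w * K p.2 w)) hI]
    congr 1
    funext p
    rw [integral_const_mul]
  rw [e1]
  refine integral_nonneg fun w => ?_
  have e2 : (∫ p : X × X, f p.1 * f p.2 * (K p.1 w * K p.2 w) ∂(μ.prod μ)) =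
      (∫ x, f x * K x w ∂μ) * (∫ x, f x * K x w ∂μ) := by
    rw [← integral_prod_mul]
    congr 1
    funext p
    ring
  show 0 ≤ (∫ p : X × X, f p.1 * f p.2 * (K p.1 w * K p.2 w) ∂(μ.prod μ))
  rw [e2]
  exact mul_self_nonneg _

/-- The Gaussian kernel as a mixture. -/
theorem gauss_mix (b : ℝ) (hb : 0 < b) (x y : E3) :
    ∫ z : E3, Real.exp (-(2 * b) * ‖x - z‖ ^ 2) * Real.exp (-(2 * b) * ‖y - z‖ ^ 2) =
      Real.exp (-b * ‖x - y‖ ^ 2) * (Real.pi / (4 * b)) ^ (3 / 2 : ℝ) := by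
  have e : ∀ z : E3, Real.exp (-(2 * b) * ‖x - z‖ ^ 2) * Real.exp (-(2 * b) * ‖y - z‖ ^ 2) =
      Real.exp (-b * ‖x - y‖ ^ 2) * Real.exp (-(4 * b) * ‖z - (2⁻¹ : ℝ) • (x + y)‖ ^ 2) := by
    intro z
    rw [← Real.exp_add, ← Real.exp_add]
    congr 1
    have h1 : ‖(x - z) + (y - z)‖ ^ 2 + ‖(x - z) - (y - z)‖ ^ 2 =
        2 * (‖x - z‖ ^ 2 + ‖y - z‖ ^ 2) := by
      have := parallelogram_law_with_norm ℝ (x - z) (y - z)
      nlinarith [this]
    have h2 : (x - z) + (y - z) = (-2 : ℝ) • (z - (2⁻¹ : ℝ) • (x + y)) := by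
      rw [smul_sub, smul_smul]
      norm_num
      rw [two_smul ℝ z]
      abel
    have h3 : (x - z) - (y - z) = x - y := by abel
    rw [h2, h3, norm_smul] at h1
    have h4 : ‖(-2 : ℝ)‖ = 2 := by norm_num
    rw [h4, mul_pow] at h1
    nlinarith [h1]
  simp_rw [e]
  rw [integral_const_mul]
  congr 1
  rw [integral_sub_right_eq_self (fun z : E3 => Real.exp (-(4 * b) * ‖z‖ ^ 2))]
  have := GaussianFourier.integral_rexp_neg_mul_sq_norm (V := E3) (b := 4 * b) (by positivity)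
  rw [this]
  simp

theorem gauss_mix_integrable (b : ℝ) (hb : 0 < b) (x y : E3) :
    Integrable (fun z : E3 => Real.exp (-(2 * b) * ‖x - z‖ ^ 2) *
      Real.exp (-(2 * b) * ‖y - z‖ ^ 2)) := by
  by_contra h
  have h1 := integral_undef h
  rw [gauss_mix b hb x y] at h1
  have : 0 < Real.exp (-b * ‖x - y‖ ^ 2) * (Real.pi / (4 * b)) ^ (3 / 2 : ℝ) := by positivity
  linarith

/-- Positivity of the Gaussian kernel. -/
theorem gauss_pos (b : ℝ) (hb : 0 < b) (f : E3 → ℝ) (hf : Integrable f) :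
    0 ≤ ∫ p : E3 × E3, f p.1 * f p.2 * Real.exp (-b * ‖p.1 - p.2‖ ^ 2)
      ∂(volume.prod volume) := by
  have hff : Integrable (fun p : E3 × E3 => f p.1 * f p.2) (volume.prod volume) :=
    Integrable.mul_prod hf hf
  have hc : 0 < (Real.pi / (4 * b)) ^ (3 / 2 : ℝ) := by positivity
  have hm := hf.aestronglyMeasurable
  have key := pos_of_mixture (volume : Measure E3) (volume : Measure E3) f
    (fun x z => Real.exp (-(2 * b) * ‖x - z‖ ^ 2)) ?_ ?_ ?_
  · simp_rw [gauss_mix b hb] at key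
    have e : ∀ p : E3 × E3, f p.1 * f p.2 *
        (Real.exp (-b * ‖p.1 - p.2‖ ^ 2) * (Real.pi / (4 * b)) ^ (3 / 2 : ℝ)) =
        (f p.1 * f p.2 * Real.exp (-b * ‖p.1 - p.2‖ ^ 2)) *
          (Real.pi / (4 * b)) ^ (3 / 2 : ℝ) := fun p => by ring
    simp_rw [e] at key
    rw [integral_mul_const] at key
    exact nonneg_of_mul_nonneg_left key hc
  · refine AEStronglyMeasurable.mul ?_ ?_
    · exact hff.aestronglyMeasurable.comp_fst
    · refine Continuous.aestronglyMeasurable ?_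
      fun_prop
  · exact Eventually.of_forall fun p => gauss_mix_integrable b hb p.1 p.2
  · have e : ∀ p : E3 × E3, (∫ w : E3, ‖f p.1 * f p.2 *
        (Real.exp (-(2 * b) * ‖p.1 - w‖ ^ 2) * Real.exp (-(2 * b) * ‖p.2 - w‖ ^ 2))‖) =
        ‖f p.1 * f p.2‖ *
          (Real.exp (-b * ‖p.1 - p.2‖ ^ 2) * (Real.pi / (4 * b)) ^ (3 / 2 : ℝ)) := by
      intro p
      rw [← gauss_mix b hb p.1 p.2, ← integral_const_mul]
      congr 1
      funext w
      rw [norm_mul]
      congr 1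
      exact Real.norm_of_nonneg (by positivity)
    simp_rw [e]
    refine Integrable.mul_bdd (c := (Real.pi / (4 * b)) ^ (3 / 2 : ℝ)) hff.norm ?_ ?_
    · refine Continuous.aestronglyMeasurable ?_
      fun_prop
    · refine Eventually.of_forall fun p => ?_
      rw [Real.norm_of_nonneg (by positivity)]
      have : Real.exp (-b * ‖p.1 - p.2‖ ^ 2) ≤ 1 := by
        rw [Real.exp_le_one_iff]
        have : 0 ≤ b * ‖p.1 - p.2‖ ^ 2 := by positivity
        linarith
      nlinarith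

/-- The Coulomb kernel as a mixture of Gaussian kernels. -/
theorem coul_mix (d : E3) :
    1 / ‖d‖ = 2 / Real.sqrt Real.pi * ∫ t in Ioi (0 : ℝ), Real.exp (-(‖d‖ ^ 2) * t ^ 2) := by
  rw [integral_gaussian_Ioi, Real.sqrt_div' _ (by positivity), Real.sqrt_sq (norm_nonneg _)]
  have : Real.sqrt Real.pi ≠ 0 := by positivity
  field_simp

theorem diag_null : ∀ᵐ p : E3 × E3 ∂(volume.prod volume), p.1 ≠ p.2 := by
  rw [ae_iff]
  have hm : MeasurableSet {p : E3 × E3 | ¬ p.1 ≠ p.2} := by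
    have : {p : E3 × E3 | ¬ p.1 ≠ p.2} = {p : E3 × E3 | p.1 = p.2} := by ext p; simp
    rw [this]
    exact (isClosed_eq continuous_fst continuous_snd).measurableSet
  rw [Measure.measure_prod_null hm]
  refine Eventually.of_forall fun x => ?_
  have : (Prod.mk x ⁻¹' {p : E3 × E3 | ¬ p.1 ≠ p.2}) = {x} := by
    ext y
    simp [eq_comm]
  show volume (Prod.mk x ⁻¹' {p : E3 × E3 | ¬ p.1 ≠ p.2}) = 0
  rw [this]
  simp

theorem pos : PosStatement := by
  intro f hf hI
  have e0 : ∫ x, f x * pot f x =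
      ∫ p : E3 × E3, f p.1 * f p.2 / ‖p.1 - p.2‖ ∂(volume.prod volume) := by
    rw [integral_prod _ hI]
    congr 1
    funext x
    unfold pot
    rw [← integral_const_mul]
    congr 1
    funext y
    ring
  rw [e0]
  have hpi : 0 < 2 / Real.sqrt Real.pi := by positivity
  -- the integrand on the product with the parameter
  have hff : Integrable (fun p : E3 × E3 => f p.1 * f p.2) (volume.prod volume) :=
    Integrable.mul_prod hf hf
  have hI2 : Integrable (fun q : (E3 × E3) × ℝ => f q.1.1 * f q.1.2 *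
      Real.exp (-(‖q.1.1 - q.1.2‖ ^ 2) * q.2 ^ 2))
      ((volume.prod volume).prod (volume.restrict (Ioi (0 : ℝ)))) := by
    rw [integrable_prod_iff]
    · constructor
      · filter_upwards [diag_null] with p hp
        have : 0 < ‖p.1 - p.2‖ ^ 2 := by
          have : 0 < ‖p.1 - p.2‖ := norm_pos_iff.2 (sub_ne_zero.2 hp)
          positivity
        exact ((integrable_exp_neg_mul_sq this).integrableOn).const_mul _
      · have e : ∀ p : E3 × E3, (∫ t in Ioi (0 : ℝ), ‖f p.1 * f p.2 *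
            Real.exp (-(‖p.1 - p.2‖ ^ 2) * t ^ 2)‖) =
            (2 / Real.sqrt Real.pi)⁻¹ * ‖f p.1 * f p.2 / ‖p.1 - p.2‖‖ := by
          intro p
          have e1 : ∀ t : ℝ, ‖f p.1 * f p.2 * Real.exp (-(‖p.1 - p.2‖ ^ 2) * t ^ 2)‖ =
              ‖f p.1 * f p.2‖ * Real.exp (-(‖p.1 - p.2‖ ^ 2) * t ^ 2) := by
            intro t
            rw [norm_mul]
            congr 1
            exact Real.norm_of_nonneg (by positivity)
          simp_rw [e1]
          rw [integral_const_mul, norm_div, norm_norm, div_eq_mul_one_div _ ‖p.1 - p.2‖,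
            coul_mix]
          field_simp
        simp_rw [e]
        exact hI.norm.const_mul _
    · refine AEStronglyMeasurable.mul ?_ ?_
      · exact hff.aestronglyMeasurable.comp_fst
      · refine Continuous.aestronglyMeasurable ?_
        fun_prop
  have e1 : ∫ p : E3 × E3, f p.1 * f p.2 / ‖p.1 - p.2‖ ∂(volume.prod volume) =
      2 / Real.sqrt Real.pi * ∫ t in Ioi (0 : ℝ), (∫ p : E3 × E3, f p.1 * f p.2 *
        Real.exp (-(‖p.1 - p.2‖ ^ 2) * t ^ 2) ∂(volume.prod volume)) := by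
    rw [← integral_integral_swap (f := fun (p : E3 × E3) (t : ℝ) =>
      f p.1 * f p.2 * Real.exp (-(‖p.1 - p.2‖ ^ 2) * t ^ 2)) hI2, ← integral_const_mul]
    congr 1
    funext p
    rw [integral_const_mul, div_eq_mul_one_div, coul_mix]
    ring
  rw [e1]
  refine mul_nonneg hpi.le ?_
  refine setIntegral_nonneg measurableSet_Ioi fun t ht => ?_
  have ht2 : 0 < t ^ 2 := by
    have : (0 : ℝ) < t := ht
    positivity
  have := gauss_pos (t ^ 2) ht2 f hf
  refine this.trans (le_of_eq ?_)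
  congr 1
  funext p
  congr 2
  ring

end Pool.Agent.Lib.MP_405077_mp.H75
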