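import Pool.Agent.Lib.MP_405077_mp.H94.Basic

set_option autoImplicit false

open MeasureTheory Set Filter Topology

namespace Pool.Agent.Lib.MP_405077_mp.H75

open Pool.Agent.Lib.MP_405077_mp

/-- The uniform density of total mass one on the unit ball. -/
noncomputable def ub : E3 → ℝ :=
  indicator (Metric.ball (0 : E3) 1) fun _ => ((volume : Measure E3).real (Metric.ball 0 1))⁻¹

theorem vol_pos : 0 < (volume : Measure E3).real (Metric.ball 0 1) :=
  ENNReal.toReal_pos (Metric.measure_ball_pos volume _ one_pos).ne'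
    measure_ball_lt_top.ne

theorem ub_nonneg (x : E3) : 0 ≤ ub x :=
  indicator_nonneg (fun _ _ => (inv_pos.2 vol_pos).le) x

theorem ub_BC : BC ub := by
  refine ⟨measurable_const.indicator measurableSet_ball,
    ⟨((volume : Measure E3).real (Metric.ball 0 1))⁻¹, fun x => ?_⟩, ⟨1, fun x hx => ?_⟩⟩
  · rw [abs_of_nonneg (ub_nonneg x)]
    exact indicator_le_self' (fun _ _ => (inv_pos.2 vol_pos).le) x
  · unfold ub
    rw [indicator_of_notMem]
    simpa [Metric.mem_ball, dist_zero_right] using hx.le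

theorem ub_int : ∫ x, ub x = 1 := by
  unfold ub
  rw [integral_indicator_const _ measurableSet_ball, smul_eq_mul]
  exact mul_inv_cancel₀ vol_pos.ne'

/-- The charge density of the nuclei, smeared on balls of radius `ε`. -/
noncomputable def smear {k : ℕ} (z : Fin k → ℝ) (R : Fin k → E3) (ε : ℝ) (y : E3) : ℝ :=
  ∑ i, z i * ((ε⁻¹) ^ 3 * ub (ε⁻¹ • (y - R i)))

theorem smear_nonneg {k : ℕ} (z : Fin k → ℝ) (R : Fin k → E3) (ε : ℝ) (hz : ∀ i, 0 < z i)
    (hε : 0 < ε) (y : E3) : 0 ≤ smear z R ε y :=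
  Finset.sum_nonneg fun i _ => mul_nonneg (hz i).le (mul_nonneg (by positivity) (ub_nonneg _))

theorem piece_BC (c : ℝ) (R : E3) (ε : ℝ) (hε : 0 < ε) :
    BC (fun y => c * ((ε⁻¹) ^ 3 * ub (ε⁻¹ • (y - R)))) := by
  obtain ⟨M, hM⟩ := ub_BC.bdd
  obtain ⟨r, hr⟩ := ub_BC.supp
  refine ⟨?_, ⟨|c| * ((ε⁻¹) ^ 3 * M), fun x => ?_⟩, ⟨ε * |r| + ‖R‖, fun x hx => ?_⟩⟩
  · have := ub_BC.meas
    fun_prop
  · rw [abs_mul, abs_mul, abs_of_nonneg (by positivity : 0 ≤ (ε⁻¹) ^ 3)]
    have := hM (ε⁻¹ • (x - R))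
    gcongr
  · rw [hr, mul_zero, mul_zero]
    rw [norm_smul, Real.norm_of_nonneg (by positivity), inv_mul_eq_div, lt_div_iff₀ hε]
    have h1 : ‖x‖ - ‖R‖ ≤ ‖x - R‖ := norm_sub_norm_le x R
    have h2 : r ≤ |r| := le_abs_self r
    nlinarith

theorem sum_BC {k : ℕ} (f : Fin k → E3 → ℝ) (h : ∀ i, BC (f i)) : BC (fun y => ∑ i, f i y) := by
  choose M hM using fun i => (h i).bdd
  choose r hr using fun i => (h i).supp
  refine ⟨Finset.measurable_fun_sum _ fun i _ => (h i).meas, ⟨∑ i, M i, fun x => ?_⟩,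
    ⟨∑ i, |r i|, fun x hx => ?_⟩⟩
  · exact (Finset.abs_sum_le_sum_abs _ _).trans (Finset.sum_le_sum fun i _ => hM i x)
  · refine Finset.sum_eq_zero fun i _ => hr i x (lt_of_le_of_lt ?_ hx)
    exact (le_abs_self _).trans
      (Finset.single_le_sum (f := fun i => |r i|) (fun j _ => abs_nonneg _) (Finset.mem_univ i))

theorem smear_BC {k : ℕ} (z : Fin k → ℝ) (R : Fin k → E3) (ε : ℝ) (hε : 0 < ε) :
    BC (smear z R ε) :=
  sum_BC (fun i y => z i * ((ε⁻¹) ^ 3 * ub (ε⁻¹ • (y - R i)))) fun i => piece_BC _ _ _ hε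

/-- The potential of a smeared unit charge. -/
theorem pot_piece (R : E3) (ε : ℝ) (hε : 0 < ε) (x : E3) :
    pot (fun y => (ε⁻¹) ^ 3 * ub (ε⁻¹ • (y - R))) x = ∫ w, ub w / ‖x - R - ε • w‖ := by
  unfold pot
  have e : ∀ y : E3, (ε⁻¹) ^ 3 * ub (ε⁻¹ • (y - R)) / ‖x - y‖ =
      (fun v : E3 => (fun w : E3 => (ε⁻¹) ^ 3 * (ub w / ‖x - R - ε • w‖)) (ε⁻¹ • v)) (y - R) := by
    intro y
    simp only
    rw [smul_inv_smul₀ hε.ne', sub_sub_sub_cancel_right]
    ring
  simp_rw [e]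
  rw [integral_sub_right_eq_self (fun v : E3 =>
    (fun w : E3 => (ε⁻¹) ^ 3 * (ub w / ‖x - R - ε • w‖)) (ε⁻¹ • v))]
  rw [Measure.integral_comp_smul_of_nonneg volume
    (fun w : E3 => (ε⁻¹) ^ 3 * (ub w / ‖x - R - ε • w‖)) ε⁻¹ (hR := by positivity)]
  rw [integral_const_mul, finrank_euclideanSpace, Fintype.card_fin, smul_eq_mul, ← mul_assoc,
    inv_mul_cancel₀ (by positivity), one_mul]

theorem pot_piece_scale (R : E3) (ε : ℝ) (hε : 0 < ε) (x : E3) :
    pot (fun y => (ε⁻¹) ^ 3 * ub (ε⁻¹ • (y - R))) x = ε⁻¹ * pot ub (ε⁻¹ • (x - R)) := by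
  rw [pot_piece R ε hε]
  unfold pot
  rw [← integral_const_mul]
  congr 1
  funext w
  have : x - R - ε • w = ε • (ε⁻¹ • (x - R) - w) := by
    rw [smul_sub, smul_inv_smul₀ hε.ne']
  rw [this, norm_smul, Real.norm_of_nonneg hε.le]
  rw [div_mul_eq_div_div, div_right_comm, div_eq_inv_mul _ ε]

/-- Uniform bound for the potential of a smeared unit charge. -/
theorem exists_bound (hP : PotStatement) : ∃ C : ℝ, 0 < C ∧ ∀ (R : E3) (ε : ℝ), 0 < ε →
    ∀ x, x ≠ R → pot (fun y => (ε⁻¹) ^ 3 * ub (ε⁻¹ • (y - R))) x ≤ C * (1 / ‖x - R‖) := by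
  obtain ⟨C, hC⟩ := (hP ub ub_BC).2.2.1
  refine ⟨|C| + 1, by positivity, fun R ε hε x hx => ?_⟩
  have hx' : 0 < ‖x - R‖ := norm_pos_iff.2 (sub_ne_zero.2 hx)
  rw [pot_piece_scale R ε hε]
  have h1 := hC (ε⁻¹ • (x - R))
  rw [norm_smul, Real.norm_of_nonneg (by positivity)] at h1
  set P := pot ub (ε⁻¹ • (x - R)) with hPdef
  have h2 : |P| * (ε⁻¹ * ‖x - R‖) ≤ |C| + 1 := by
    have h3 : |P| * (ε⁻¹ * ‖x - R‖) ≤ |P| * (1 + ε⁻¹ * ‖x - R‖) :=
      mul_le_mul_of_nonneg_left (by linarith) (abs_nonneg _)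
    have h4 := le_abs_self C
    linarith
  rw [mul_one_div, le_div_iff₀ hx']
  have h5 : ε⁻¹ * P * ‖x - R‖ = P * (ε⁻¹ * ‖x - R‖) := by ring
  rw [h5]
  refine le_trans ?_ h2
  exact mul_le_mul_of_nonneg_right (le_abs_self P) (by positivity)

/-- Convergence of the potential of a smeared unit charge. -/
theorem tendsto_piece (R : E3) (x : E3) (hx : x ≠ R) (e : ℕ → ℝ) (he : ∀ n, 0 < e n)
    (he0 : Tendsto e atTop (𝓝 0)) :
    Tendsto (fun n => pot (fun y => ((e n)⁻¹) ^ 3 * ub ((e n)⁻¹ • (y - R))) x) atTop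
      (𝓝 (1 / ‖x - R‖)) := by
  have hx' : 0 < ‖x - R‖ := norm_pos_iff.2 (sub_ne_zero.2 hx)
  simp_rw [pot_piece R _ (he _)]
  have hlim : ∫ w, ub w / ‖x - R‖ = 1 / ‖x - R‖ := by
    rw [integral_div, ub_int]
  rw [← hlim]
  refine tendsto_integral_filter_of_dominated_convergence
    (fun w => ub w * (2 / ‖x - R‖)) ?_ ?_ ?_ ?_
  · refine Eventually.of_forall fun n => Measurable.aestronglyMeasurable ?_
    have := ub_BC.meas
    fun_prop
  · have h1 : ∀ᶠ n in atTop, e n < ‖x - R‖ / 2 := by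
      have := he0.eventually (gt_mem_nhds (half_pos hx'))
      exact this
    filter_upwards [h1] with n hn
    refine Eventually.of_forall fun w => ?_
    rw [Real.norm_of_nonneg (div_nonneg (ub_nonneg w) (norm_nonneg _))]
    by_cases hw : w ∈ Metric.ball (0 : E3) 1
    · rw [div_eq_mul_inv]
      refine mul_le_mul_of_nonneg_left ?_ (ub_nonneg w)
      have hw1 : ‖w‖ < 1 := by simpa [Metric.mem_ball, dist_zero_right] using hw
      have h2 : ‖x - R‖ / 2 ≤ ‖x - R - e n • w‖ := by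
        have h3 : ‖x - R‖ - ‖e n • w‖ ≤ ‖x - R - e n • w‖ := norm_sub_norm_le _ _
        rw [norm_smul, Real.norm_of_nonneg (he n).le] at h3
        have := he n
        nlinarith [norm_nonneg w]
      rw [← inv_div]
      exact inv_anti₀ (by positivity) h2
    · have : ub w = 0 := indicator_of_notMem hw _
      rw [this]
      simp
  · exact (H94.BC_integrable ub_BC).mul_const _
  · refine Eventually.of_forall fun w => ?_
    refine Tendsto.div tendsto_const_nhds ?_ hx'.ne'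
    have h4 : Tendsto (fun n => x - R - e n • w) atTop (𝓝 (x - R - (0 : ℝ) • w)) :=
      tendsto_const_nhds.sub (he0.smul_const w)
    rw [zero_smul, sub_zero] at h4
    exact h4.norm

theorem pot_smear (hP : PotStatement) {k : ℕ} (z : Fin k → ℝ) (R : Fin k → E3) (ε : ℝ)
    (hε : 0 < ε) (x : E3) :
    pot (smear z R ε) x =
      ∑ i, z i * pot (fun y => (ε⁻¹) ^ 3 * ub (ε⁻¹ • (y - R i))) x := by
  have e : ∀ y, smear z R ε y / ‖x - y‖ =
      ∑ i, z i * ((ε⁻¹) ^ 3 * ub (ε⁻¹ • (y - R i))) / ‖x - y‖ := by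
    intro y
    unfold smear
    rw [Finset.sum_div]
  unfold pot
  simp_rw [e]
  rw [integral_finsetSum]
  · refine Finset.sum_congr rfl fun i _ => ?_
    rw [← integral_const_mul]
    congr 1
    funext y
    ring
  · intro i _
    exact (hP _ (piece_BC (z i) (R i) ε hε)).1 x

theorem pot_smear_nonneg {k : ℕ} (z : Fin k → ℝ) (R : Fin k → E3) (ε : ℝ) (hz : ∀ i, 0 < z i)
    (hε : 0 < ε) (x : E3) : 0 ≤ pot (smear z R ε) x :=
  H94.pot_nonneg (smear_nonneg z R ε hz hε) x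

theorem nuc_nonneg {k : ℕ} (z : Fin k → ℝ) (R : Fin k → E3) (hz : ∀ i, 0 < z i) (x : E3) :
    0 ≤ nuc z R x :=
  Finset.sum_nonneg fun i _ => div_nonneg (hz i).le (norm_nonneg _)

theorem pot_smear_le (hP : PotStatement) : ∃ C : ℝ, 0 < C ∧ ∀ (k : ℕ) (z : Fin k → ℝ)
    (R : Fin k → E3) (ε : ℝ), (∀ i, 0 < z i) → 0 < ε → ∀ x, (∀ i, x ≠ R i) →
      pot (smear z R ε) x ≤ C * nuc z R x := by
  obtain ⟨C, hC, h⟩ := exists_bound hP
  refine ⟨C, hC, fun k z R ε hz hε x hx => ?_⟩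
  rw [pot_smear hP z R ε hε, nuc, Finset.mul_sum]
  refine Finset.sum_le_sum fun i _ => ?_
  have := mul_le_mul_of_nonneg_left (h (R i) ε hε x (hx i)) (hz i).le
  refine this.trans (le_of_eq ?_)
  ring

theorem tendsto_pot_smear (hP : PotStatement) {k : ℕ} (z : Fin k → ℝ) (R : Fin k → E3) (x : E3)
    (hx : ∀ i, x ≠ R i) (e : ℕ → ℝ) (he : ∀ n, 0 < e n) (he0 : Tendsto e atTop (𝓝 0)) :
    Tendsto (fun n => pot (smear z R (e n)) x) atTop (𝓝 (nuc z R x)) := by
  have : (fun n => pot (smear z R (e n)) x) = fun n =>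
      ∑ i, z i * pot (fun y => ((e n)⁻¹) ^ 3 * ub ((e n)⁻¹ • (y - R i))) x := by
    funext n
    exact pot_smear hP z R (e n) (he n) x
  rw [this]
  have e1 : nuc z R x = ∑ i, z i * (1 / ‖x - R i‖) := by
    unfold nuc
    exact Finset.sum_congr rfl fun i _ => by ring
  rw [e1]
  exact tendsto_finsetSum _ fun i _ => (tendsto_piece (R i) x (hx i) e he he0).const_mul _

theorem nuc_measurable {k : ℕ} (z : Fin k → ℝ) (R : Fin k → E3) : Measurable (nuc z R) := by
  unfold nuc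
  fun_prop

theorem ae_ne {k : ℕ} (R : Fin k → E3) : ∀ᵐ x : E3, ∀ i, x ≠ R i := by
  rw [ae_all_iff]
  intro i
  rw [ae_iff]
  simp

/-- The power `5/2` of the potential of the nuclei is integrable on balls. -/
theorem nuc_pow_integrableOn {k : ℕ} (z : Fin k → ℝ) (R : Fin k → E3) (hz : ∀ i, 0 < z i)
    (r : ℝ) : IntegrableOn (fun x => nuc z R x ^ (5 / 2 : ℝ)) (Metric.ball 0 r) := by
  have h1 : ∀ i, IntegrableOn (fun x : E3 => (z i / ‖x - R i‖) ^ (5 / 2 : ℝ))
      (Metric.ball 0 r) := by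
    intro i
    have h2 : IntegrableOn (fun x : E3 => (z i / ‖x‖) ^ (5 / 2 : ℝ))
        (Metric.ball 0 (|r| + ‖R i‖)) := by
      refine integrableOn_ball_of_norm_le_rpow (α := 5 / 2) (C := z i ^ (5 / 2 : ℝ)) ?_ ?_ ?_ ?_
      · rw [finrank_euclideanSpace, Fintype.card_fin]; norm_num
      · rw [finrank_euclideanSpace, Fintype.card_fin]; norm_num
      · refine Eventually.of_forall fun x => ?_
        have hz' := hz i
        rw [Real.norm_of_nonneg (by positivity), Real.div_rpow hz'.le (norm_nonneg _),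
          Real.rpow_neg (norm_nonneg _), div_eq_mul_inv]
      · refine Measurable.aestronglyMeasurable ?_
        fun_prop
    have h3 : Integrable (fun x : E3 => indicator (Metric.ball 0 (|r| + ‖R i‖))
        (fun x : E3 => (z i / ‖x‖) ^ (5 / 2 : ℝ)) (x - R i)) :=
      ((integrable_indicator_iff measurableSet_ball).2 h2).comp_sub_right (R i)
    refine (h3.integrableOn (s := Metric.ball 0 r)).congr_fun ?_ measurableSet_ball
    intro x hx
    have hx' : ‖x‖ < r := by simpa [Metric.mem_ball, dist_zero_right] using hx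
    simp only
    rw [indicator_of_mem]
    rw [Metric.mem_ball, dist_zero_right]
    have := norm_sub_le x (R i)
    have := le_abs_self r
    linarith
  have h4 : IntegrableOn (fun x : E3 => (k : ℝ) ^ ((5 / 2 : ℝ) - 1) *
      ∑ i, (z i / ‖x - R i‖) ^ (5 / 2 : ℝ)) (Metric.ball 0 r) := by
    refine Integrable.const_mul ?_ _
    exact integrable_finsetSum _ fun i _ => h1 i
  refine Integrable.mono' h4 ?_ ?_
  · exact ((nuc_measurable z R).pow_const _).aestronglyMeasurable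
  · refine Eventually.of_forall fun x => ?_
    rw [Real.norm_of_nonneg (Real.rpow_nonneg (nuc_nonneg z R hz x) _)]
    have := Real.rpow_sum_le_const_mul_sum_rpow_of_nonneg (s := Finset.univ)
      (f := fun i => z i / ‖x - R i‖) (p := 5 / 2) (by norm_num)
      (fun i _ => div_nonneg (hz i).le (norm_nonneg _))
    simpa [nuc, Finset.card_univ] using this

end Pool.Agent.Lib.MP_405077_mp.H75
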